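import Pool.Agent.H34.GZ.Targets1

/-!
# Row RED of the board gz: Siegel reduction
-/

set_option autoImplicit false

namespace Pool.Agent.H14.GZ

open Pool.Agent.H34.GM Pool.Agent.H34.GZ Matrix

namespace RED

/-- block matrices with first row `(x, 0)` -/
def blk {R : Type} [Zero R] {m : ℕ} (x : R) (v : Fin m → R) (A : Matrix (Fin m) (Fin m) R) :
    Matrix (Fin (m + 1)) (Fin (m + 1)) R :=
  Matrix.of (vecCons (vecCons x 0) fun i => vecCons (v i) (A i))

section

variable {R : Type} [CommRing R] {m : ℕ}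

lemma blk_00 (x : R) (v : Fin m → R) (A : Matrix (Fin m) (Fin m) R) : blk x v A 0 0 = x := rfl

lemma blk_0s (x : R) (v : Fin m → R) (A : Matrix (Fin m) (Fin m) R) (j : Fin m) :
    blk x v A 0 j.succ = 0 := rfl

lemma blk_s0 (x : R) (v : Fin m → R) (A : Matrix (Fin m) (Fin m) R) (i : Fin m) :
    blk x v A i.succ 0 = v i := rfl

lemma blk_ss (x : R) (v : Fin m → R) (A : Matrix (Fin m) (Fin m) R) (i j : Fin m) :
    blk x v A i.succ j.succ = A i j := rfl

lemma blk_mul (x y : R) (v w : Fin m → R) (A B : Matrix (Fin m) (Fin m) R) :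
    blk x v A * blk y w B = blk (x * y) (fun i => v i * y + ∑ j, A i j * w j) (A * B) := by
  ext i j
  rw [mul_apply, Fin.sum_univ_succ]
  refine Fin.cases ?_ (fun i => ?_) i <;> refine Fin.cases ?_ (fun j => ?_) j
  · simp only [blk_00, blk_0s, blk_s0, zero_mul, Finset.sum_const_zero, add_zero]
  · simp only [blk_00, blk_0s, zero_mul, Finset.sum_const_zero, add_zero, mul_zero]
  · simp only [blk_00, blk_s0, blk_ss]
  · simp only [blk_0s, blk_s0, blk_ss, mul_zero, zero_add, mul_apply]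

lemma blk_diag (x : R) (a : Fin m → R) : blk x 0 (diagonal a) = diagonal (vecCons x a) := by
  ext i j
  refine Fin.cases ?_ (fun i => ?_) i <;> refine Fin.cases ?_ (fun j => ?_) j
  · simp [blk_00]
  · rw [blk_0s, diagonal_apply_ne _ (Fin.succ_ne_zero j).symm]
  · rw [blk_s0, diagonal_apply_ne _ (Fin.succ_ne_zero i)]
    rfl
  · rw [blk_ss]
    by_cases h : i = j
    · subst h
      simp
    · rw [diagonal_apply_ne _ h, diagonal_apply_ne _ (fun h' => h (Fin.succ_injective _ h'))]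

lemma det_blk (x : R) (v : Fin m → R) (A : Matrix (Fin m) (Fin m) R) :
    (blk x v A).det = x * A.det := by
  rw [det_succ_row_zero, Fin.sum_univ_succ, Finset.sum_eq_zero, add_zero]
  · rw [blk_00]
    have : (blk x v A).submatrix Fin.succ (Fin.succAbove 0) = A := by
      ext i j
      rfl
    rw [this]
    simp
  · intro j _
    rw [blk_0s]
    ring

lemma eq_blk (Z : Matrix (Fin (m + 1)) (Fin (m + 1)) R) (h : ∀ j : Fin m, Z 0 j.succ = 0) :
    Z = blk (Z 0 0) (fun i => Z i.succ 0) (Matrix.of fun i j => Z i.succ j.succ) := by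
  ext i j
  refine Fin.cases ?_ (fun i => ?_) i <;> refine Fin.cases ?_ (fun j => ?_) j
  · rfl
  · rw [h, blk_0s]
  · rfl
  · rfl

end

/-- a reflection -/
lemma house {m : ℕ} (v : Fin (m + 1) → ℝ) (hv : 0 < v ⬝ᵥ v) :
    ∃ k : Mat (m + 1), k * kᵀ = 1 ∧ ∀ j, (v ᵥ* kᵀ) j = if j = 0 then Real.sqrt (v ⬝ᵥ v) else 0 := by
  set r := Real.sqrt (v ⬝ᵥ v) with hr
  have hr2 : r * r = v ⬝ᵥ v := Real.mul_self_sqrt hv.le
  set w : Fin (m + 1) → ℝ := v - Pi.single 0 r with hw
  have e1 : w ⬝ᵥ w = v ⬝ᵥ v - 2 * (r * v 0) + r * r := by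
    rw [hw, sub_dotProduct, dotProduct_sub, dotProduct_sub, dotProduct_single, single_dotProduct,
      dotProduct_single, Pi.single_eq_same]
    ring
  have e2 : v ⬝ᵥ w = v ⬝ᵥ v - r * v 0 := by
    rw [hw, dotProduct_sub, dotProduct_single]
    ring
  by_cases h0 : w ⬝ᵥ w = 0
  · refine ⟨1, by rw [transpose_one, mul_one], fun j => ?_⟩
    have hw0 : w = 0 := dotProduct_self_eq_zero.1 h0
    rw [transpose_one, vecMul_one]
    have : v = Pi.single 0 r := by
      rw [hw] at hw0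
      exact sub_eq_zero.1 hw0
    rw [this]
    by_cases hj : j = 0
    · rw [if_pos hj, hj, Pi.single_eq_same]
    · rw [if_neg hj, Pi.single_eq_of_ne hj]
  · have ht : (1 - (2 / (w ⬝ᵥ w)) • vecMulVec w w)ᵀ = 1 - (2 / (w ⬝ᵥ w)) • vecMulVec w w := by
      rw [transpose_sub, transpose_one, transpose_smul, transpose_vecMulVec]
    refine ⟨1 - (2 / (w ⬝ᵥ w)) • vecMulVec w w, ?_, fun j => ?_⟩
    · rw [ht, sub_mul, one_mul, mul_sub, mul_one, smul_mul_smul_comm, vecMulVec_mul_vecMulVec,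
        vecMulVec_smul, smul_smul]
      have : 2 / (w ⬝ᵥ w) * (2 / (w ⬝ᵥ w)) * (w ⬝ᵥ w) = 2 * (2 / (w ⬝ᵥ w)) := by
        field_simp
      rw [this]
      module
    · rw [ht, vecMul_sub, vecMul_one, vecMul_smul]
      have h1 : v ᵥ* vecMulVec w w = (v ⬝ᵥ w) • w := by
        rw [vecMul_vecMulVec]
      have h2 : v - (2 / (w ⬝ᵥ w)) • (v ⬝ᵥ w) • w = Pi.single 0 r := by
        rw [smul_smul]
        have : 2 / (w ⬝ᵥ w) * (v ⬝ᵥ w) = 1 := by
          rw [div_mul_eq_mul_div, div_eq_one_iff_eq h0, e2, e1, hr2]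
          ring
        rw [this, one_smul, hw]
        abel
      rw [h1, h2]
      by_cases hj : j = 0
      · rw [if_pos hj, hj, Pi.single_eq_same]
      · rw [if_neg hj, Pi.single_eq_of_ne hj]

lemma cR_mul {m : ℕ} (α β : ZM m) : cR (α * β) = cR α * cR β := by
  have h : ∀ γ : ZM m, cR γ = (Int.castRingHom ℝ).mapMatrix γ := fun γ => rfl
  rw [h, h, h, map_mul]

/-- vectors of the lattice are not short -/
lemma low {m : ℕ} (z : Mat m) (hz : z.det ≠ 0) :
    ∃ c : ℝ, 0 < c ∧ ∀ x : Fin m → ℤ, x ≠ 0 → c ≤ vb x z ⬝ᵥ vb x z := by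
  set y := z⁻¹ with hy
  set S : ℝ := ∑ i, ∑ j, y i j ^ 2 + 1 with hS
  have hS0 : 0 < S := by positivity
  refine ⟨1 / S, by positivity, fun x hx => ?_⟩
  obtain ⟨j, hj⟩ := Function.ne_iff.1 hx
  have hu : IsUnit z.det := isUnit_iff_ne_zero.2 hz
  have h1 : vb x z ᵥ* y = fun i => (x i : ℝ) := by
    unfold vb
    rw [vecMul_vecMul, hy, mul_nonsing_inv _ hu, vecMul_one]
  have h2 : (x j : ℝ) = ∑ i, vb x z i * y i j := by
    have := congrFun h1 j
    rw [← this]
    rfl
  have h3 : (1 : ℝ) ≤ (x j : ℝ) ^ 2 := by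
    have : (1 : ℤ) ≤ (x j) ^ 2 := by
      have h0 : x j ≠ 0 := hj
      have := sq_pos_of_ne_zero h0
      omega
    exact_mod_cast this
  have h4 : (x j : ℝ) ^ 2 ≤ (∑ i, vb x z i ^ 2) * ∑ i, y i j ^ 2 := by
    rw [h2]
    exact Finset.sum_mul_sq_le_sq_mul_sq _ _ _
  have h5 : vb x z ⬝ᵥ vb x z = ∑ i, vb x z i ^ 2 := by
    unfold dotProduct
    exact Finset.sum_congr rfl fun i _ => (sq _).symm
  have h6 : ∑ i, y i j ^ 2 ≤ S := by
    have : ∑ i, y i j ^ 2 ≤ ∑ i, ∑ j, y i j ^ 2 :=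
      Finset.sum_le_sum fun i _ => Finset.single_le_sum (f := fun j => y i j ^ 2)
        (fun _ _ => sq_nonneg _) (Finset.mem_univ j)
    rw [hS]
    linarith
  rw [h5, div_le_iff₀ hS0]
  have h7 : 0 ≤ ∑ i, vb x z i ^ 2 := Finset.sum_nonneg fun _ _ => sq_nonneg _
  calc (1 : ℝ) ≤ _ := h3
    _ ≤ _ := h4
    _ ≤ _ := mul_le_mul_of_nonneg_left h6 h7

lemma row_ne {m : ℕ} {γ : ZM m} (h : IsUnit γ) (i : Fin m) : γ i ≠ 0 := by
  intro h0
  have h1 : γ.det = 0 := det_eq_zero_of_row_eq_zero i fun j => congrFun h0 j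
  have h2 := (isUnit_iff_isUnit_det γ).1 h
  rw [h1] at h2
  exact not_isUnit_zero h2

/-- squares of the lengths of the rows -/
lemma row_sq {m : ℕ} (n k : Mat m) (a : Fin m → ℝ) (hk : k * kᵀ = 1) (i : Fin m) :
    (n * diagonal a * k) i ⬝ᵥ (n * diagonal a * k) i = ∑ j, (n i j * a j) ^ 2 := by
  have h1 : (n * diagonal a * k) i ⬝ᵥ (n * diagonal a * k) i =
      ((n * diagonal a * k) * (n * diagonal a * k)ᵀ) i i := rfl
  rw [h1, transpose_mul, Matrix.mul_assoc (n * diagonal a), ← Matrix.mul_assoc k, hk,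
    Matrix.one_mul, mul_apply]
  refine Finset.sum_congr rfl fun j _ => ?_
  rw [transpose_apply, mul_diagonal, sq]

/-- the reduction, with the better order condition -/
theorem main : ∀ (m : ℕ) (z : Mat m), z.det ≠ 0 → ∃ γ : ZM m, IsUnit γ ∧
    ∃ (n : Mat m) (a : Fin m → ℝ) (k : Mat m), cR γ * z = n * diagonal a * k ∧ k * kᵀ = 1 ∧
      (∀ i, 0 < a i) ∧ (∀ i, n i i = 1) ∧ (∀ i j, i < j → n i j = 0) ∧
      (∀ i j, j < i → |n i j| ≤ 1 / 2) ∧
      ∀ i j, i ≤ j → a i ≤ 2 ^ ((j : ℕ) - (i : ℕ)) * a j := by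
  intro m
  induction m with
  | zero =>
    intro z _
    exact ⟨1, isUnit_one, 1, fun i => i.elim0, 1, Matrix.ext fun i => i.elim0,
      Matrix.ext fun i => i.elim0, fun i => i.elim0, fun i => i.elim0, fun i => i.elim0,
      fun i => i.elim0, fun i => i.elim0⟩
  | succ m ih =>
    intro z hz
    obtain ⟨c, hc0, hc⟩ := low z hz
    set Q : Set ℝ := {s | ∃ γ : ZM (m + 1), IsUnit γ ∧ s = vb (γ 0) z ⬝ᵥ vb (γ 0) z} with hQ
    have hQb : BddBelow Q := by
      refine ⟨c, ?_⟩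
      rintro s ⟨γ, h1, rfl⟩
      exact hc _ (row_ne h1 0)
    have hQn : Q.Nonempty := ⟨_, 1, isUnit_one, rfl⟩
    have hI0 : 0 < sInf Q := by
      refine lt_of_lt_of_le hc0 (le_csInf hQn ?_)
      rintro s ⟨γ, h1, rfl⟩
      exact hc _ (row_ne h1 0)
    obtain ⟨s, ⟨γ₀, hγ₀, rfl⟩, hs⟩ := exists_lt_of_csInf_lt hQn (by linarith : sInf Q < 2 * sInf Q)
    have hmin : ∀ γ : ZM (m + 1), IsUnit γ → sInf Q ≤ vb (γ 0) z ⬝ᵥ vb (γ 0) z :=
      fun γ h => csInf_le hQb ⟨γ, h, rfl⟩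
    set v := vb (γ₀ 0) z with hv
    have hv0 : 0 < v ⬝ᵥ v := hc0.trans_le (hc _ (row_ne hγ₀ 0))
    obtain ⟨k₀, hk₀, hvk⟩ := house v hv0
    have hk₀' : k₀ᵀ * k₀ = 1 := mul_eq_one_comm.1 hk₀
    set a₀ := Real.sqrt (v ⬝ᵥ v) with ha₀
    have ha₀0 : 0 < a₀ := Real.sqrt_pos.2 hv0
    have ha₀2 : a₀ ^ 2 = v ⬝ᵥ v := Real.sq_sqrt hv0.le
    set Z : Mat (m + 1) := cR γ₀ * z * k₀ᵀ with hZ
    have hZ0 : ∀ j, Z 0 j = if j = 0 then a₀ else 0 := by
      intro j
      rw [← hvk j]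
      rfl
    have hZb := eq_blk Z fun j => by rw [hZ0, if_neg (Fin.succ_ne_zero j)]
    rw [hZ0 0, if_pos rfl] at hZb
    set v' : Fin m → ℝ := fun i => Z i.succ 0 with hv'
    set z' : Mat m := Matrix.of fun i j => Z i.succ j.succ with hz'
    have hcRu : (cR γ₀).det ≠ 0 := by
      have h1 : (cR γ₀).det = (γ₀.det : ℝ) := by
        have : cR γ₀ = (Int.castRingHom ℝ).mapMatrix γ₀ := rfl
        rw [this, ← RingHom.map_det]
        rfl
      rw [h1]
      have h2 := (isUnit_iff_isUnit_det γ₀).1 hγ₀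
      exact_mod_cast h2.ne_zero
    have hZd : Z.det ≠ 0 := by
      rw [hZ, det_mul, det_mul, det_transpose]
      refine mul_ne_zero (mul_ne_zero hcRu hz) fun h0 => ?_
      have h3 := congrArg Matrix.det hk₀
      rw [det_mul, h0, zero_mul, det_one] at h3
      exact zero_ne_one h3
    have hz'd : z'.det ≠ 0 := by
      rw [hZb, det_blk] at hZd
      exact right_ne_zero_of_mul hZd
    obtain ⟨γ', hγ', n', a', k', e', hk', ha', hn1, hn2, hn3, ho⟩ := ih z' hz'd
    set u : Fin m → ℝ := fun i => (∑ j, cR γ' i j * v' j) / a₀ with hu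
    set w : Fin m → ℤ := fun i => -round (u i) with hw
    have hwu : ∀ i, |(w i : ℝ) + u i| ≤ 1 / 2 := by
      intro i
      have : (w i : ℝ) + u i = u i - round (u i) := by
        rw [hw]
        push_cast
        ring
      rw [this]
      exact abs_sub_round (u i)
    set γ : ZM (m + 1) := blk 1 w γ' * γ₀ with hγ
    have hγu : IsUnit γ := by
      refine IsUnit.mul ?_ hγ₀
      rw [isUnit_iff_isUnit_det, det_blk, one_mul]
      exact (isUnit_iff_isUnit_det γ').1 hγ'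
    set n : Mat (m + 1) := blk 1 (fun i => (w i : ℝ) + u i) n' with hn
    set k : Mat (m + 1) := blk 1 0 k' * k₀ with hk
    have hcb : cR (blk 1 w γ') = blk 1 (fun i => (w i : ℝ)) (cR γ') := by
      ext i j
      refine Fin.cases ?_ (fun i => ?_) i <;> refine Fin.cases ?_ (fun j => ?_) j
      · show ((1 : ℤ) : ℝ) = 1
        exact Int.cast_one
      · show ((0 : ℤ) : ℝ) = 0
        exact Int.cast_zero
      · rfl
      · rfl
    have heq : cR γ * z = n * diagonal (vecCons a₀ a') * k := by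
      have h1 : cR γ * z = blk 1 (fun i => (w i : ℝ)) (cR γ') * blk a₀ v' z' * k₀ := by
        rw [hγ, cR_mul, hcb, ← hZb, hZ, Matrix.mul_assoc _ (cR γ₀) z,
          Matrix.mul_assoc _ (cR γ₀ * z * k₀ᵀ), Matrix.mul_assoc (cR γ₀ * z), hk₀',
          Matrix.mul_one]
      have h2 : n * diagonal (vecCons a₀ a') * k =
          n * blk a₀ 0 (diagonal a') * blk 1 0 k' * k₀ := by
        rw [hk, ← Matrix.mul_assoc, ← blk_diag]
      rw [h1, h2, hn]
      refine congrArg (fun t => t * k₀) ?_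
      rw [blk_mul, blk_mul, blk_mul, ← e']
      congr 1
      · rw [one_mul, mul_one]
      · funext i
        have h3 : u i * a₀ = ∑ j, cR γ' i j * v' j := by
          rw [hu]
          exact div_mul_cancel₀ _ ha₀0.ne'
        simp only [Pi.zero_apply, mul_zero, Finset.sum_const_zero, add_zero, mul_one]
        rw [← h3]
        ring
    have hkk : k * kᵀ = 1 := by
      have h1 : (blk (1 : ℝ) 0 k')ᵀ = blk 1 0 k'ᵀ := by
        ext i j
        refine Fin.cases ?_ (fun i => ?_) i <;> refine Fin.cases ?_ (fun j => ?_) j <;> rfl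
      rw [hk, transpose_mul, Matrix.mul_assoc, ← Matrix.mul_assoc k₀, hk₀, Matrix.one_mul, h1,
        blk_mul, hk']
      have h2 : (1 : Mat (m + 1)) = diagonal (vecCons 1 fun _ => 1) := by
        rw [← diagonal_one]
        congr 1
        funext i
        refine Fin.cases rfl (fun i => rfl) i
      rw [h2, ← blk_diag, diagonal_one, one_mul]
      congr 1
      funext i
      simp
    have hlen : ∀ i : Fin (m + 1), sInf Q ≤ ∑ j, (n i j * vecCons a₀ a' j) ^ 2 := by
      intro i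
      rw [← row_sq n k _ hkk i, ← heq]
      have h1 : IsUnit (γ.submatrix (Equiv.swap 0 i) id) := by
        rw [isUnit_iff_isUnit_det, det_permute]
        exact (Units.isUnit _).mul ((isUnit_iff_isUnit_det γ).1 hγu)
      refine (hmin _ h1).trans (le_of_eq ?_)
      have h2 : (γ.submatrix (Equiv.swap 0 i) id) 0 = γ i := by
        funext j
        rw [submatrix_apply, Equiv.swap_apply_left]
        rfl
      rw [h2]
      rfl
    have ho0 : ∀ i0 : Fin m, (∀ j, i0 ≤ j) → a₀ ≤ 2 * a' i0 := by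
      intro i0 hi0
      have h1 := hlen i0.succ
      rw [Fin.sum_univ_succ] at h1
      have h2 : ∑ j : Fin m, (n i0.succ j.succ * vecCons a₀ a' j.succ) ^ 2 = a' i0 ^ 2 := by
        rw [Finset.sum_eq_single i0]
        · rw [hn, blk_ss, hn1, one_mul]
          rfl
        · intro j _ hj
          rw [hn, blk_ss, hn2 i0 j (lt_of_le_of_ne (hi0 j) (Ne.symm hj))]
          ring
        · intro h
          exact absurd (Finset.mem_univ _) h
      rw [h2] at h1
      have h3 : n i0.succ 0 * vecCons a₀ a' 0 = ((w i0 : ℝ) + u i0) * a₀ := rfl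
      rw [h3] at h1
      have h4 : (((w i0 : ℝ) + u i0) * a₀) ^ 2 ≤ a₀ ^ 2 / 4 := by
        rw [mul_pow]
        have h5 : ((w i0 : ℝ) + u i0) ^ 2 ≤ (1 / 2) ^ 2 :=
          sq_le_sq' (abs_le.1 (hwu i0)).1 (abs_le.1 (hwu i0)).2
        have h6 := mul_le_mul_of_nonneg_right h5 (sq_nonneg a₀)
        linarith
      have h7 : a₀ ^ 2 < 2 * sInf Q := by rw [ha₀2]; exact hs
      have h8 : a₀ ^ 2 ≤ (2 * a' i0) ^ 2 := by
        rw [mul_pow]
        linarith
      exact le_of_sq_le_sq h8 (by have := ha' i0; linarith)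
    refine ⟨γ, hγu, n, vecCons a₀ a', k, heq, hkk, ?_, ?_, ?_, ?_, ?_⟩
    · intro i
      refine Fin.cases ha₀0 (fun i => ha' i) i
    · intro i
      refine Fin.cases rfl (fun i => hn1 i) i
    · intro i j
      refine Fin.cases ?_ (fun i => ?_) i <;> refine Fin.cases ?_ (fun j => ?_) j
      · exact fun h => absurd h (lt_irrefl _)
      · exact fun _ => rfl
      · exact fun h => absurd h (by simp)
      · exact fun h => hn2 i j (Fin.succ_lt_succ_iff.1 h)
    · intro i j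
      refine Fin.cases ?_ (fun i => ?_) i <;> refine Fin.cases ?_ (fun j => ?_) j
      · exact fun h => absurd h (lt_irrefl _)
      · exact fun h => absurd h (by simp)
      · exact fun _ => hwu i
      · exact fun h => hn3 i j (Fin.succ_lt_succ_iff.1 h)
    · intro i j
      refine Fin.cases ?_ (fun i => ?_) i <;> refine Fin.cases ?_ (fun j => ?_) j
      · intro _
        show a₀ ≤ 2 ^ (0 - 0) * a₀
        norm_num
      · intro _
        show a₀ ≤ 2 ^ ((j.succ : Fin (m + 1)) : ℕ) * a' j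
        have hm : 0 < m := lt_of_le_of_lt (Nat.zero_le _) j.2
        have h1 := ho0 ⟨0, hm⟩ fun j => Nat.zero_le _
        have h2 := ho ⟨0, hm⟩ j (Nat.zero_le _)
        rw [Fin.val_succ, pow_succ]
        have h3 : (j : ℕ) - ((⟨0, hm⟩ : Fin m) : ℕ) = (j : ℕ) := Nat.sub_zero _
        rw [h3] at h2
        linarith
      · exact fun h => absurd h (by simp)
      · intro h
        have h1 := ho i j (Fin.succ_le_succ_iff.1 h)
        show a' i ≤ 2 ^ ((j.succ : ℕ) - (i.succ : ℕ)) * a' j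
        rw [Fin.val_succ, Fin.val_succ, Nat.add_sub_add_right]
        exact h1

end RED

theorem pf_RED : T_RED := by
  intro m z hz
  obtain ⟨γ, hγ, n, a, k, e, hk, ha, h1, h2, h3, ho⟩ := RED.main m z hz
  refine ⟨γ, hγ, n, a, k, ⟨e, hk, ha, h1, h2, h3, fun i j hij => (ho i j hij).trans ?_⟩⟩
  exact mul_le_mul_of_nonneg_right
    (pow_le_pow_right₀ (by norm_num) ((Nat.sub_le _ _).trans j.2.le)) (ha j).le

end Pool.Agent.H14.GZ
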