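import Pool.Agent.H34.GZ.Targets2

/-!
# Row SPZ of the board gz: the two halves of the Mellin integral on the critical line
-/

set_option autoImplicit false

namespace Pool.Agent.H14.GZ

open MeasureTheory Pool.Agent.H34.GM Pool.Agent.H34.GZ

noncomputable section

theorem pf_SPZ (hTHC : T_THC) (hCON : T_CON) : T_SPZ := by
  intro m q lam mu hm hq htr Φ hTst hsma
  obtain ⟨hcont, hzero⟩ := hTHC m q Φ mu lam hm hTst htr
  obtain ⟨th, hth⟩ : ∃ th : ℝ → ℂ, th = thF q Φ mu lam := ⟨_, rfl⟩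
  have hdec : ∀ N : ℕ, ∃ C : ℝ, ∀ r : ℝ, 1 ≤ r → ‖th r‖ ≤ C * r ^ (-(N : ℝ)) := by
    intro N
    obtain ⟨C, hC⟩ := hsma N
    rw [hth]
    exact ⟨C, hC⟩
  have hint0 := (hCON m th hm (by rw [hth]; exact hcont) (by rw [hth]; exact hzero) hdec).2
  have hq0 : (0 : ℝ) < q := by exact_mod_cast (by omega : 0 < q)
  obtain ⟨w, hw⟩ : ∃ w : ℝ, w = Real.sqrt q := ⟨_, rfl⟩
  have hw0 : 0 < w := by rw [hw]; exact Real.sqrt_pos.2 hq0
  have hww : w * w = q := by rw [hw]; exact Real.mul_self_sqrt hq0.le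
  have hnorm0 : ∀ t r : ℝ, 0 < r → ‖th r * ((r : ℝ) : ℂ) ^ (-((m : ℂ) *
      ((1 / 2 + t * Complex.I) + ((m : ℂ) - 1) / 2)) - 1)‖ =
      ‖th r‖ * r ^ (-((m : ℝ) ^ 2 / 2) - 1) := by
    intro t r hr
    rw [norm_mul, Complex.norm_cpow_eq_rpow_re_of_pos hr]
    congr 2
    simp [Complex.add_re, Complex.mul_re, Complex.sub_re]
    ring
  have hall : IntegrableOn (fun r : ℝ => ‖th r‖ * r ^ (-((m : ℝ) ^ 2 / 2) - 1))
      (Set.Ioi (0 : ℝ)) := by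
    have h1 := (hint0 (1 / 2 + (0 : ℝ) * Complex.I)).norm
    exact (integrableOn_congr_fun (fun r hr => hnorm0 0 r hr) measurableSet_Ioi).1 h1
  have himage : (fun r : ℝ => (q : ℝ) / r) '' Set.Ioo 0 w = Set.Ioi w := by
    ext y
    constructor
    · rintro ⟨r, ⟨hr0, hrw⟩, rfl⟩
      show w < (q : ℝ) / r
      rw [lt_div_iff₀ hr0, ← hww]
      exact mul_lt_mul_of_pos_left hrw hw0
    · intro hy
      have hy' : w < y := hy
      have hy0 : 0 < y := hw0.trans hy'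
      refine ⟨(q : ℝ) / y, ⟨by positivity, ?_⟩, ?_⟩
      · rw [div_lt_iff₀ hy0, ← hww]
        exact mul_lt_mul_of_pos_left hy' hw0
      · show (q : ℝ) / ((q : ℝ) / y) = y
        field_simp
  have hder : ∀ r ∈ Set.Ioo (0 : ℝ) w,
      HasDerivWithinAt (fun r : ℝ => (q : ℝ) / r) (-(q : ℝ) / r ^ 2) (Set.Ioo 0 w) r := by
    intro r hr
    have h1 : HasDerivAt (fun r : ℝ => (q : ℝ) / r) (-(q : ℝ) / r ^ 2) r := by
      have h2 := (hasDerivAt_inv hr.1.ne').const_mul (q : ℝ)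
      have e1 : (fun r : ℝ => (q : ℝ) / r) = fun r : ℝ => (q : ℝ) * r⁻¹ := by
        funext r
        rw [div_eq_mul_inv]
      rw [e1]
      have e2 : -(q : ℝ) / r ^ 2 = (q : ℝ) * -(r ^ 2)⁻¹ := by
        rw [div_eq_mul_inv]
        ring
      rw [e2]
      exact h2
    exact h1.hasDerivWithinAt
  have hinj : Set.InjOn (fun r : ℝ => (q : ℝ) / r) (Set.Ioo 0 w) := by
    intro r hr r' hr' h
    have h' : (q : ℝ) / r = (q : ℝ) / r' := h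
    have h1 : r ≠ 0 := hr.1.ne'
    have h2 : r' ≠ 0 := hr'.1.ne'
    rw [div_eq_div_iff h1 h2] at h'
    exact (mul_left_cancel₀ hq0.ne' h').symm
  have hchange : ∫ r in Set.Ioi w, ‖th r‖ * r ^ (-((m : ℝ) ^ 2 / 2) - 1) =
      ∫ r in Set.Ioo 0 w, |(-(q : ℝ) / r ^ 2)| •
        (‖th ((q : ℝ) / r)‖ * ((q : ℝ) / r) ^ (-((m : ℝ) ^ 2 / 2) - 1)) := by
    rw [← himage]
    exact integral_image_eq_integral_abs_deriv_smul measurableSet_Ioo hder hinj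
      (fun r => ‖th r‖ * r ^ (-((m : ℝ) ^ 2 / 2) - 1))
  have hpoint : ∀ r ∈ Set.Ioo (0 : ℝ) w, |(-(q : ℝ) / r ^ 2)| •
        (‖th ((q : ℝ) / r)‖ * ((q : ℝ) / r) ^ (-((m : ℝ) ^ 2 / 2) - 1)) =
      ‖thDz q Φ mu lam r‖ * r ^ (-((m : ℝ) ^ 2 / 2) - 1) := by
    intro r hr
    have hr0 : 0 < r := hr.1
    have hqr : 0 < (q : ℝ) / r := div_pos hq0 hr0
    have e1 : |(-(q : ℝ) / r ^ 2)| = (q : ℝ) / r ^ 2 := by
      rw [neg_div, abs_neg, abs_of_pos (by positivity)]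
    have e2 : ‖thDz q Φ mu lam r‖ =
        ((q : ℝ) ^ ((m : ℝ) ^ 2 / 2) * ((q : ℝ) / r) ^ (-((m : ℝ) ^ 2))) *
          ‖th ((q : ℝ) / r)‖ := by
      unfold thDz
      rw [norm_mul, Complex.norm_real, Real.norm_of_nonneg (by positivity), hth]
    rw [smul_eq_mul, e1, e2]
    have e3 : ((q : ℝ) / r) ^ (-((m : ℝ) ^ 2 / 2) - 1) =
        ((q : ℝ) / r) ^ (-((m : ℝ) ^ 2 / 2)) * ((q : ℝ) / r)⁻¹ := by
      rw [sub_eq_add_neg, Real.rpow_add hqr, Real.rpow_neg_one]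
    have e4 : r ^ (-((m : ℝ) ^ 2 / 2) - 1) = (r ^ ((m : ℝ) ^ 2 / 2))⁻¹ * r⁻¹ := by
      rw [sub_eq_add_neg, Real.rpow_add hr0, Real.rpow_neg_one, Real.rpow_neg hr0.le]
    have e5 : ((q : ℝ) / r) ^ (-((m : ℝ) ^ 2)) =
        ((q : ℝ) / r) ^ (-((m : ℝ) ^ 2 / 2)) * ((q : ℝ) / r) ^ (-((m : ℝ) ^ 2 / 2)) := by
      rw [← Real.rpow_add hqr]
      congr 1
      ring
    have e6 : ((q : ℝ) / r) ^ (-((m : ℝ) ^ 2 / 2)) =
        ((q : ℝ) ^ ((m : ℝ) ^ 2 / 2))⁻¹ * r ^ ((m : ℝ) ^ 2 / 2) := by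
      rw [Real.rpow_neg hqr.le, Real.div_rpow hq0.le hr0.le, inv_div, div_eq_mul_inv]
      ring
    rw [e3, e4, e5]
    have h1 : 0 < (q : ℝ) ^ ((m : ℝ) ^ 2 / 2) := Real.rpow_pos_of_pos hq0 _
    have h2 : 0 < r ^ ((m : ℝ) ^ 2 / 2) := Real.rpow_pos_of_pos hr0 _
    rw [e6]
    field_simp
  have hlast : ∫ r in Set.Ioi w, ‖th r‖ * r ^ (-((m : ℝ) ^ 2 / 2) - 1) =
      ∫ r in Set.Ioc (0 : ℝ) w, ‖thDz q Φ mu lam r‖ *
        r ^ (-((m : ℝ) ^ 2 / 2) - 1) := by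
    rw [hchange, integral_Ioc_eq_integral_Ioo]
    exact setIntegral_congr_fun measurableSet_Ioo hpoint
  have hdual : IntegrableOn (fun r : ℝ => ‖thDz q Φ mu lam r‖ * r ^ (-((m : ℝ) ^ 2 / 2) - 1))
      (Set.Ioc (0 : ℝ) w) := by
    have h1 : IntegrableOn (fun r : ℝ => ‖th r‖ * r ^ (-((m : ℝ) ^ 2 / 2) - 1)) (Set.Ioi w) :=
      hall.mono_set (Set.Ioi_subset_Ioi hw0.le)
    rw [← himage, integrableOn_image_iff_integrableOn_abs_deriv_smul measurableSet_Ioo hder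
      hinj] at h1
    rw [integrableOn_Ioc_iff_integrableOn_Ioo]
    exact (integrableOn_congr_fun hpoint measurableSet_Ioo).1 h1
  refine ⟨?_, ?_, fun t => ?_⟩
  · rw [← hth]
    exact hall.mono_set fun r hr => hr.1
  · rw [← hw]
    exact hdual
  have hint := hint0 (1 / 2 + t * Complex.I)
  obtain ⟨ex, hex⟩ : ∃ ex : ℂ, ex = -((m : ℂ) * ((1 / 2 + t * Complex.I) +
    ((m : ℂ) - 1) / 2)) - 1 := ⟨_, rfl⟩
  have hre : ex.re = -((m : ℝ) ^ 2 / 2) - 1 := by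
    rw [hex]
    simp [Complex.add_re, Complex.mul_re, Complex.sub_re]
    ring
  rw [← hex] at hint
  have hnorm : ∀ r : ℝ, 0 < r → ‖th r * ((r : ℝ) : ℂ) ^ ex‖ =
      ‖th r‖ * r ^ (-((m : ℝ) ^ 2 / 2) - 1) := by
    intro r hr
    rw [norm_mul, Complex.norm_cpow_eq_rpow_re_of_pos hr, hre]
  have hLm : Lm q Φ mu lam (1 / 2 + t * Complex.I) =
      ∫ r in Set.Ioi (0 : ℝ), th r * ((r : ℝ) : ℂ) ^ ex := by
    rw [hth, hex]
    rfl
  have hsplit : ∫ r in Set.Ioi (0 : ℝ), th r * ((r : ℝ) : ℂ) ^ ex =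
      (∫ r in Set.Ioc (0 : ℝ) w, th r * ((r : ℝ) : ℂ) ^ ex) +
        ∫ r in Set.Ioi w, th r * ((r : ℝ) : ℂ) ^ ex := by
    rw [← Set.Ioc_union_Ioi_eq_Ioi hw0.le]
    exact setIntegral_union (Set.Ioc_disjoint_Ioi le_rfl) measurableSet_Ioi
      (hint.mono_set Set.Ioc_subset_Ioi_self)
      (hint.mono_set (Set.Ioi_subset_Ioi hw0.le))
  have hfirst : ‖∫ r in Set.Ioc (0 : ℝ) w, th r * ((r : ℝ) : ℂ) ^ ex‖ ≤
      ∫ r in Set.Ioc (0 : ℝ) w, ‖th r‖ * r ^ (-((m : ℝ) ^ 2 / 2) - 1) := by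
    refine (norm_integral_le_integral_norm _).trans (le_of_eq ?_)
    exact setIntegral_congr_fun measurableSet_Ioc fun r hr => hnorm r hr.1
  have hsecond : ‖∫ r in Set.Ioi w, th r * ((r : ℝ) : ℂ) ^ ex‖ ≤
      ∫ r in Set.Ioi w, ‖th r‖ * r ^ (-((m : ℝ) ^ 2 / 2) - 1) := by
    refine (norm_integral_le_integral_norm _).trans (le_of_eq ?_)
    exact setIntegral_congr_fun measurableSet_Ioi fun r hr => hnorm r (hw0.trans hr)
  rw [hLm, hsplit, ← hw]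
  refine (norm_add_le _ _).trans ?_
  rw [← hth]
  have h3 := hsecond
  rw [hlast] at h3
  exact add_le_add hfirst h3

end

end Pool.Agent.H14.GZ
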